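import Pool.Agent.V1132.CommPGL

/-!
# Every odd number `2 n + 1`, `n ≥ 1`, is the clique number of a commuting graph
-/

set_option autoImplicit false

namespace Pool.Agent.Results.MP_dcd76c_al.OddClique

open Pool.Agent.V1132.CommutingGraph

/-- **Theorem.** For every positive integer `n` there is a finite non-abelian group `G` whose
commuting graph has clique number `2 n + 1`. -/
theorem result : ∀ n : ℕ, 0 < n → ∃ (G : Type) (_ : Group G) (_ : Finite G),
    (∃ a b : G, a * b ≠ b * a) ∧ (commutingGraph G).cliqueNum = 2 * n + 1 := by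
  intro n hn
  obtain ⟨G, hG, hfin, hna, h1, _⟩ := Pool.Agent.V1132.CommPGL.core n hn
  exact ⟨G, hG, hfin, hna, h1⟩

end Pool.Agent.Results.MP_dcd76c_al.OddClique
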